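import Mathlib
import Pool.Agent.Helper15K1.QC.Clo3

/-!
# Q1 depends only on the characteristic, and it is uniform

Q1 for the schemes of degree at most `d` does not depend on the algebraically closed ground field of
a given characteristic. If it holds, then it holds uniformly in all these schemes and in all these
fields, and Q1 in characteristic `0` gives the bounds of Q1 for almost all characteristics.
-/

set_option autoImplicit false

namespace Pool.Agent.Results.MP_44217d_ag.AllFields

open Pool.Agent.H826R3.SM Pool.Agent.TH671.DU Pool.Agent.N86.SQ Pool.Agent.Helper15K1.QC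

/-- Let `d` be a natural number and `P` a set of characteristics which contains `0` if it is
infinite. `Q1UpTo K d` says that Q1 holds for all nonempty finite schemes of degree at most `d` over
`K`. For a set `S` of characteristics `UniformQ1 S d ε` says that there is an `n₀` such that
`δ(Γ^n) ≤ ε (deg Γ)^{(1+ε)n}` for all `n ≥ n₀` and all nonempty finite schemes `Γ` of degree at most
`d` over all algebraically closed fields with characteristic in `S`. Equivalent are:

1. for every algebraically closed field `K` with characteristic in `P` there is an algebraically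
   closed field `k` of the same characteristic with `Q1UpTo k d`;
2. `Q1UpTo K d` holds for all algebraically closed fields `K` with characteristic in `P`;
3. for every `ε > 0` there is an `N` such that `UniformQ1 S d ε`, where `S` is `P` if `0` is not in
   `P`, and `S` consists of `P` and of all characteristics `≥ N` if `0` is in `P`. -/
theorem result (d : ℕ) (P : ℕ → Prop) (hP : {p | P p}.Infinite → P 0) : List.TFAE [
    ∀ (K : Type) [Field K] [IsAlgClosed K], P (ringChar K) →
      ∃ (k : Type) (_ : Field k), IsAlgClosed k ∧ ringChar k = ringChar K ∧ Q1UpTo k d,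
    ∀ (K : Type) [Field K] [IsAlgClosed K], P (ringChar K) → Q1UpTo K d,
    ∀ ε : ℝ, 0 < ε → ∃ N : ℕ, UniformQ1 (fun p => P p ∨ (P 0 ∧ N ≤ p)) d ε] := by
  simp only [q1UpTo_iff, uniformQ1_iff]
  tfae_have 1 → 2 := by
    intro h K _ _ hK
    obtain ⟨k, _, _, hk, h1⟩ := h K hK
    exact (qUpTo_char hk d).1 h1
  tfae_have 2 → 1 := fun h K _ _ hK => ⟨K, inferInstance, inferInstance, rfl, h K hK⟩
  tfae_have 2 → 3 := fun h ε hε => unif_main (closed_nbhd P hP) d h ε hε
  tfae_have 3 → 2 := by
    intro h K _ _ hK
    refine qUpTo_of_unif (S := P) (fun ε hε => ?_) K hK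
    obtain ⟨N, n₀, hN⟩ := h ε hε
    exact ⟨n₀, fun K _ _ hK => hN K (Or.inl hK)⟩
  tfae_finish

end Pool.Agent.Results.MP_44217d_ag.AllFields
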