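import Mathlib
import Pool.Agent.Helper15K1.QC.Stmt2

/-!
# Hardest schemes for Q1

The growth rate of a finite scheme `Γ` is the limit of `(deg Γ^n + δ(Γ^n))^{1/n}`; Q1 for `Γ` says
that it is equal to `deg Γ`. Among all local schemes of a given degree over all algebraically closed
fields there is one whose growth rate is the largest one. So Q1 for this single scheme is equivalent
to Q1 for all local schemes of this degree over all fields.
-/

set_option autoImplicit false

namespace Pool.Agent.Results.MP_44217d_ag.HardestSchemes

open Pool.Agent.H826R3.SM Pool.Agent.TH671.DU Pool.Agent.N86.SQ Pool.Agent.Helper15K1.QC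

/-- All fields are algebraically closed. For a nonempty finite scheme `Γ = Spec A` over `K` let
`growthRate K A` be the infimum over `n ≥ 1` of `root K A n = (deg Γ^n + δ(Γ^n))^{1/n}`.

Let `d ≥ 1` and let `P` be a set of characteristics which contains `0` if it is infinite, and at
least one characteristic of a field (for example, the set of all characteristics). There is a
characteristic `p₀` in `P` (and uncountable fields of characteristic `p₀` exist) such that over every
uncountable field `L` of characteristic `p₀` there is a local `L`-algebra `A` of degree `d` with the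
following properties (`IsHardest`): `Spec A` has the largest growth rate of all local schemes of
degree `d` over all fields with characteristic in `P`, and Q1 holds for `Spec A` if and only if it
holds for all these schemes over all these fields. -/
theorem result (d : ℕ) (P : ℕ → Prop) (hd : 1 ≤ d) (hP : {p | P p}.Infinite → P 0)
    (hne : ∃ (K : Type) (_ : Field K), IsAlgClosed K ∧ P (ringChar K)) :
    ∃ p₀ : ℕ, P p₀ ∧
      (∃ (L : Type) (_ : Field L), IsAlgClosed L ∧ Uncountable L ∧ ringChar L = p₀) ∧
      ∀ (L : Type) [Field L] [IsAlgClosed L] [Uncountable L], ringChar L = p₀ →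
        ∃ (A : Type) (_ : CommRing A) (_ : Algebra L A), Module.Finite L A ∧ IsLocalRing A ∧
          Module.finrank L A = d ∧ IsHardest P d L A := by
  obtain ⟨e, rfl⟩ : ∃ e, d = e + 1 := ⟨d - 1, by omega⟩
  obtain ⟨L₀, _, hL₀, E, _, _, c, hLP, hc, h⟩ := exists_max P hP e hne
  refine ⟨ringChar L₀, hLP, ?_, ?_⟩
  · have hunc : Uncountable (Set ℕ) := ⟨fun hcount => by
      obtain ⟨f, hf⟩ := exists_injective_nat (Set ℕ)
      exact Function.cantor_injective f hf⟩
    let F := FractionRing (MvPolynomial (Set ℕ) L₀)
    refine ⟨AlgebraicClosure F, inferInstance, inferInstance, ?_, ?_⟩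
    · have hinj : Function.Injective fun s : Set ℕ =>
          (algebraMap F (AlgebraicClosure F))
            (algebraMap (MvPolynomial (Set ℕ) L₀) F (MvPolynomial.X s)) := by
        intro s t hst
        have h1 := (algebraMap F (AlgebraicClosure F)).injective hst
        exact MvPolynomial.X_injective (IsFractionRing.injective (MvPolynomial (Set ℕ) L₀) F h1)
      exact hinj.uncountable
    · exact (Algebra.ringChar_eq L₀ (AlgebraicClosure F)).symm
  · intro L _ _ _ hL
    have h1 : rate L₀ E ∈ growthRates L₀ (e + 1) := mem_growthRates.2 ⟨E, _, _, c, hc, rfl⟩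
    obtain ⟨E', _, _, c', hc', h2⟩ := mem_growthRates.1 (growthRates_subset hL.symm e h1)
    refine ⟨E', inferInstance, inferInstance, finite_of_basis c', hc'.isLocalRing,
      finrank_of_basis c', isHardest_of_max c' hc' (hL ▸ hLP) fun K _ _ hK A _ _ c'' hc'' => ?_⟩
    rw [h2]
    exact h K hK A c'' hc''

end Pool.Agent.Results.MP_44217d_ag.HardestSchemes
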