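import Mathlib
import Pool.Agent.Helper15K1.QC.One
import Pool.Agent.Helper15K1.QC.Stmt2

/-!
# One power of a local scheme decides Q1

For every degree `d` and every characteristic `p` there is a single exponent `n` such that for all
local schemes `Γ` of degree `d` over all algebraically closed fields of characteristic `p` the
question Q1 is decided by the smoothability defect of the single power `Γ^n`.
-/

set_option autoImplicit false

namespace Pool.Agent.Results.MP_44217d_ag.OnePowerDecides

open Pool.Agent.H826R3.SM Pool.Agent.TH671.DU Pool.Agent.N86.SQ Pool.Agent.Helper15K1.QC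

/-- For all `p`, `d` and real numbers `x` there are `n ≥ 1` and `ε > 0` such that for all
algebraically closed fields `K` of characteristic `p` and all local finite schemes `Γ = Spec A` of
degree `d` over `K`: the growth rate of `Γ`, i.e. the infimum over `m ≥ 1` of
`(deg Γ^m + δ(Γ^m))^{1/m}`, is at most `x` if and only if `d^n + δ(Γ^n) < (x + ε)^n`. For `x = d`:
Q1 holds for `Γ` if and only if `d^n + δ(Γ^n) < (d + ε)^n`. -/
theorem result (p d : ℕ) (x : ℝ) : ∃ (n : ℕ) (ε : ℝ), 1 ≤ n ∧ 0 < ε ∧
    ∀ (K : Type) [Field K] [IsAlgClosed K], ringChar K = p →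
      ∀ (A : Type) [CommRing A] [Algebra K A] [Module.Finite K A] [IsLocalRing A],
        Module.finrank K A = d →
          (growthRate K A ≤ x ↔ (d : ℝ) ^ n + delta K (Pow K A n) < (x + ε) ^ n) ∧
          (x = d → (Q1 K A ↔ (d : ℝ) ^ n + delta K (Pow K A n) < (x + ε) ^ n)) := by
  cases d with
  | zero =>
    refine ⟨1, 1, le_refl _, one_pos, fun K _ _ _ A _ _ _ _ hd => ?_⟩
    have h1 : 0 < Module.finrank K A := Module.finrank_pos
    omega
  | succ e =>
    obtain ⟨n, η, hn, hη, h⟩ := one_power p e x
    refine ⟨n, η, hn, hη, fun K _ _ hK A _ _ _ _ hd => ?_⟩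
    obtain ⟨c, hc⟩ := exists_frame hd
    have h1 := h K hK A c hc
    rw [← fadd K (Pow K A n), finrank_Pow', hd] at h1
    push_cast at h1
    rw [growthRate_eq, delta_eq]
    push_cast
    refine ⟨h1, fun hx => ?_⟩
    rw [← h1, q1_iff, qOne_iff_rate, hd, hx]
    have h2 := finrank_le_rate (k := K) A
    rw [hd] at h2
    push_cast at h2 ⊢
    exact ⟨fun h3 => h3.le, fun h3 => le_antisymm h3 h2⟩

end Pool.Agent.Results.MP_44217d_ag.OnePowerDecides
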