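import Mathlib
import Pool.Agent.Helper15K1.QC.Stmt3

/-!
# A universal sequence of finite schemes for Q1

For every degree `d` there is an explicit sequence `U_0, U_1, U_2, …` of finite schemes which contain
the powers `Γ^n` of all local schemes `Γ` of degree `d`, whose degrees are at most a polynomial in
`n` times `d^n`, and which are not much harder than the hardest power. Q1 for all local schemes of
degree `d` is equivalent to one statement on this sequence.
-/

set_option autoImplicit false

namespace Pool.Agent.Results.MP_44217d_ag.UniversalSequence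

open scoped TensorProduct
open Pool.Agent.H826R3.SM Pool.Agent.TH671.DU Pool.Agent.N86.SQ Pool.Agent.Helper15K1.QC
open MvPolynomial Filter Topology

/-- Let `k` be algebraically closed, `d = e + 1`, and `U_n` the closed subscheme of the affine space
with the coordinates `X (i, j)`, `i < n`, `j < e`, which is defined by the ideal `univIdeal k e n` of
the polynomials which vanish on `Γ^n` for all local finite schemes `Γ = Spec A` of degree `d`, where
`Γ^n` is embedded by a basis `1, c_1, …, c_e` of `A` with nilpotent `c_j` in all possible ways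
(`X (i, j)` is sent to `c_j` in the `i`-th factor). Let `s(Z) = deg Z + δ(Z)` for a finite scheme `Z`
and `P(n) = ((d + 1) n + 1)^{d^3 + d}`.

For every `n` the scheme `U_n` is finite, `d^n ≤ deg U_n ≤ P(n) d^n`, `U_n` contains `Γ^n` as a closed
subscheme for all local `Γ` of degree `d`, and for some of them (depending on `n`)
`s(U_n) ≤ P(n) s(Γ^n)`. Q1 holds for all local `Γ` of degree `d` if and only if
`δ(U_n) / (deg U_n)^{1+ε}` tends to `0` for every `ε > 0`. -/
theorem result (k : Type) [Field k] [IsAlgClosed k] (e : ℕ) :
    (∀ n : ℕ, Module.Finite k (URing k e n) ∧ (e + 1) ^ n ≤ Module.finrank k (URing k e n) ∧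
      Module.finrank k (URing k e n) ≤ polyBound (e + 1) n * (e + 1) ^ n ∧
      (∀ (A : Type) [CommRing A] [Algebra k A] [Module.Finite k A] [IsLocalRing A],
        Module.finrank k A = e + 1 → ClosedIn k (Pow k A n) (URing k e n)) ∧
      ∃ (A : Type) (_ : CommRing A) (_ : Algebra k A), Module.Finite k A ∧
        IsLocalRing A ∧ Module.finrank k A = e + 1 ∧
          size k (URing k e n) ≤ polyBound (e + 1) n * size k (Pow k A n)) ∧
    ((∀ (A : Type) [CommRing A] [Algebra k A] [Module.Finite k A] [IsLocalRing A],
      Module.finrank k A = e + 1 → Q1 k A) ↔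
      ∀ ε : ℝ, 0 < ε → Tendsto (fun n : ℕ => (delta k (URing k e n) : ℝ) /
        (Module.finrank k (URing k e n) : ℝ) ^ (1 + ε)) atTop (𝓝 0)) := by
  have hsz : ∀ n, size k (URing k e n) = mdeg k (Univ k e n) := fun n =>
    size_eq k (Univ k e n)
  refine ⟨fun n => ⟨finite_univ (k := k) (e := e) n, le_finrank_univ n, ?_, ?_, ?_⟩, ?_⟩
  · rw [polyBound_eq]
    exact finrank_univ_le n
  · intro A _ _ _ _ hd
    obtain ⟨c, hc⟩ := exists_frame hd
    exact ⟨uToPow hc n, uToPow_surjective hc n⟩
  · obtain ⟨E, _, _, c, hc, h⟩ := exists_pow_ge k e n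
    have hfin := finite_of_basis c
    refine ⟨E, _, _, hfin, hc.isLocalRing, finrank_of_basis c, ?_⟩
    rw [size_eq k (Pow k E n), hsz, polyBound_eq]
    exact h
  · simp only [delta_eq]
    refine Iff.trans ?_ (rateLe_iff_ratio (k := k) (e := e))
    constructor
    · intro h E _ _ c hc
      have := hc.isLocalRing
      have := finite_of_basis c
      have h1 := h E (finrank_of_basis c)
      rw [q1_iff, qOne_iff_rate, finrank_of_basis c] at h1
      exact h1.le
    · intro h A _ _ _ _ hd
      obtain ⟨c, hc⟩ := exists_frame hd
      rw [q1_iff, qOne_iff_rate, hd]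
      refine le_antisymm (h A c hc) ?_
      have := finrank_le_rate (k := k) A
      rwa [hd] at this

end Pool.Agent.Results.MP_44217d_ag.UniversalSequence
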